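import Pool.Agent.Helper61.CAR.GoalsQ

/-!
# Project CAR: property (N) passes to suspensions
-/

set_option autoImplicit false

open scoped ComplexOrder ZeroAtInfty InnerProductSpace ComplexConjugate Topology
open Filter

namespace Pool.Agent.Helper80.CAR

open Pool.Agent.Helper61.CAR Pool.Agent.Helper34.CAR

theorem c0_norm_le {E : Type} [NonUnitalCStarAlgebra E] (f : C₀(ℝ, E)) (c : ℝ) (hc : 0 ≤ c)
    (h : ∀ t, ‖f t‖ ≤ c) : ‖f‖ ≤ c := by
  rw [← ZeroAtInftyContinuousMap.norm_toBCF_eq_norm]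
  exact (BoundedContinuousFunction.norm_le hc).2 h

theorem c0_sum_apply {E : Type} [NonUnitalCStarAlgebra E] {ι : Type} (s : Finset ι)
    (f : ι → C₀(ℝ, E)) (t : ℝ) : (∑ i ∈ s, f i) t = ∑ i ∈ s, f i t := by
  classical
  induction s using Finset.induction_on with
  | empty => simp
  | insert a s ha ih => rw [Finset.sum_insert ha, Finset.sum_insert ha, ← ih]; rfl

theorem star_tens_mul {E : Type} [NonUnitalCStarAlgebra E] (g : C₀(ℝ, ℝ)) (x y : E) (t : ℝ) :
    (star (tens g x) * tens g y) t = ((g t ^ 2 : ℝ) : ℂ) • (star x * y) := by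
  have : (star (tens g x) * tens g y) t = star (tens g x t) * tens g y t := rfl
  rw [this, tens_apply, tens_apply, star_smul, smul_mul_smul_comm]
  congr 1
  rw [Complex.star_def, Complex.conj_ofReal]
  push_cast
  ring

theorem qf_tens {E : Type} [NonUnitalCStarAlgebra E] {J : Type} [Fintype J]
    (a : CStarMatrix J J ℂ) (g : C₀(ℝ, ℝ)) (v : J → E) (t : ℝ) :
    (qf a fun p => tens g (v p)) t = ((g t ^ 2 : ℝ) : ℂ) • qf a v := by
  unfold qf
  rw [c0_sum_apply, Finset.smul_sum]
  refine Finset.sum_congr rfl fun p _ => ?_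
  rw [c0_sum_apply, Finset.smul_sum]
  refine Finset.sum_congr rfl fun q _ => ?_
  have : (a p q • (star (tens g (v p)) * tens g (v q))) t
      = a p q • (star (tens g (v p)) * tens g (v q)) t := rfl
  rw [this, star_tens_mul, smul_comm]

/-- The block diagonal representation of the suspension. -/
noncomputable def bsig {E : Type} [NonUnitalCStarAlgebra E] {I J : Type} [Fintype I]
    [DecidableEq I] [Fintype J] [DecidableEq J] (s : I → ℝ)
    (σ : E →⋆ₙₐ[ℂ] CStarMatrix J J ℂ)
    (β : (∀ _ : I, CStarMatrix J J ℂ) →⋆ₐ[ℂ] CStarMatrix (Σ _ : I, J) (Σ _ : I, J) ℂ) :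
    C₀(ℝ, E) →⋆ₙₐ[ℂ] CStarMatrix (Σ _ : I, J) (Σ _ : I, J) ℂ where
  toFun f := β (fun i => σ (f (s i)))
  map_smul' c f := by
    rw [MonoidHom.id_apply, ← map_smul]
    congr 1
    funext i
    have : (c • f) (s i) = c • f (s i) := rfl
    rw [this, map_smul]
    rfl
  map_zero' := by
    have h : (fun i : I => σ ((0 : C₀(ℝ, E)) (s i))) = 0 := by
      funext i
      have : (0 : C₀(ℝ, E)) (s i) = 0 := rfl
      rw [this, map_zero]
      rfl
    rw [h, map_zero]
  map_add' f g := by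
    rw [← map_add]
    congr 1
    funext i
    have : (f + g) (s i) = f (s i) + g (s i) := rfl
    rw [this, map_add]
    rfl
  map_mul' f g := by
    rw [← map_mul]
    congr 1
    funext i
    have : (f * g) (s i) = f (s i) * g (s i) := rfl
    rw [this, map_mul]
    rfl
  map_star' f := by
    rw [← map_star]
    congr 1
    funext i
    have : (star f) (s i) = star (f (s i)) := rfl
    rw [this, map_star]
    rfl

theorem ns (hPU : S_PU) (hBD : S_BD) (_hCOL : S_COL) : S_NS := by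
  classical
  intro E _ hE F ε hε
  obtain ⟨I, _, _, s, g, hg0, hg1, hf⟩ := hPU E F (ε / 2) (by linarith)
  obtain ⟨J, _, _, σ, v, hv, hσ⟩ := hE
    ((F ×ˢ (Finset.univ : Finset I)).image fun q => q.1 (s q.2)) (ε / 4) (by linarith)
  obtain ⟨β, -, -, -, hβ⟩ := hBD I (fun _ => J)
  refine ⟨Σ _ : I, J, inferInstance, inferInstance, bsig s σ β,
    fun k => tens (g k.1) (v k.2), ?_, ?_⟩
  · refine c0_norm_le _ 1 zero_le_one fun t => ?_
    have h1 : (∑ p : (Σ _ : I, J), star (tens (g p.1) (v p.2)) * tens (g p.1) (v p.2)) t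
        = ((∑ i, g i t ^ 2 : ℝ) : ℂ) • ∑ p, star (v p) * v p := by
      rw [c0_sum_apply, ← Finset.univ_sigma_univ, Finset.sum_sigma]
      push_cast
      rw [Finset.sum_smul]
      refine Finset.sum_congr rfl fun i _ => ?_
      rw [Finset.smul_sum]
      refine Finset.sum_congr rfl fun p _ => ?_
      rw [star_tens_mul]
      push_cast
      rfl
    rw [h1, norm_smul, Complex.norm_real, Real.norm_of_nonneg
      (Finset.sum_nonneg fun i _ => sq_nonneg _)]
    calc (∑ i, g i t ^ 2) * ‖∑ p, star (v p) * v p‖ ≤ 1 * 1 :=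
          mul_le_mul (hg1 t) hv (norm_nonneg _) zero_le_one
      _ = 1 := one_mul 1
  · intro f hfF
    refine lt_of_le_of_lt (c0_norm_le _ (ε / 4 + ε / 2) (by linarith) fun t => ?_)
      (by linarith)
    have h1 : (qf (bsig s σ β f) fun k : (Σ _ : I, J) => tens (g k.1) (v k.2)) t
        = ∑ i, ((g i t ^ 2 : ℝ) : ℂ) • qf (σ (f (s i))) v := by
      have h2 : (qf (bsig s σ β f) fun k : (Σ _ : I, J) => tens (g k.1) (v k.2))
          = ∑ i, qf (σ (f (s i))) fun p => tens (g i) (v p) :=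
        hβ C₀(ℝ, E) (fun i => σ (f (s i))) (fun k : (Σ _ : I, J) => tens (g k.1) (v k.2))
      rw [h2, c0_sum_apply]
      exact Finset.sum_congr rfl fun i _ => qf_tens _ _ _ _
    have h3 : ((qf (bsig s σ β f) fun k : (Σ _ : I, J) => tens (g k.1) (v k.2)) - f) t
        = (∑ i, ((g i t ^ 2 : ℝ) : ℂ) • (qf (σ (f (s i))) v - f (s i)))
          + ((∑ i, ((g i t ^ 2 : ℝ) : ℂ) • f (s i)) - f t) := by
      have h4 : ((qf (bsig s σ β f) fun k : (Σ _ : I, J) => tens (g k.1) (v k.2)) - f) t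
        = (qf (bsig s σ β f) fun k : (Σ _ : I, J) => tens (g k.1) (v k.2)) t - f t := rfl
      rw [h4, h1]
      simp only [smul_sub, Finset.sum_sub_distrib]
      abel
    rw [h3]
    refine (norm_add_le _ _).trans (add_le_add ?_ (hf f hfF t).le)
    refine (norm_sum_le _ _).trans ?_
    calc ∑ i, ‖((g i t ^ 2 : ℝ) : ℂ) • (qf (σ (f (s i))) v - f (s i))‖
        ≤ ∑ i, g i t ^ 2 * (ε / 4) := by
          refine Finset.sum_le_sum fun i _ => ?_
          rw [norm_smul, Complex.norm_real, Real.norm_of_nonneg (sq_nonneg _)]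
          refine mul_le_mul_of_nonneg_left (hσ _ ?_).le (sq_nonneg _)
          exact Finset.mem_image.2 ⟨(f, i), Finset.mem_product.2 ⟨hfF, Finset.mem_univ _⟩, rfl⟩
      _ = (∑ i, g i t ^ 2) * (ε / 4) := (Finset.sum_mul _ _ _).symm
      _ ≤ 1 * (ε / 4) := mul_le_mul_of_nonneg_right (hg1 t) (by linarith)
      _ = ε / 4 := one_mul _

end Pool.Agent.Helper80.CAR
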